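import Pool.Agent.Lib.MP_f11a48_ag.helper1.Defs
import Pool.Agent.Lib.MP_f11a48_ag.helper4.Defs
import Pool.Agent.Lib.MP_f11a48_ag.U.Statement

/-!
# Abelian varieties with complex multiplication, and the objects built from them

Definitions for `Pool/Agent/Results/MP_f11a48_ag/CMTypes.lean`.
-/

set_option autoImplicit false

namespace Pool.Agent.Lib.MPf11a48.C

open Matrix MvPolynomial Module Pool.Agent.Lib.MPf11a48.CM Pool.Agent.Lib.MPf11a48.AbCM
open Pool.Agent.Lib.MPf11a48.U (AbData Ix)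

/-- `F^1 = H^{1,0}`, the subspace of `H^1(A, ℂ)` (coordinates: the dual basis of the lattice)
spanned by the classes of the invariant differentials `dz_j`. -/
def F1 {g N : ℕ} (A : AbData g N) : Submodule ℂ (Ix g → ℂ) :=
  Submodule.span ℂ (Set.range fun j : Fin g => fun l => A.lat l j)

section

variable {E : Type} [CommRing E] [Algebra ℚ E]

/-- `v` is in the `σ`-eigenspace of `E ⊗ ℂ`. -/
def IsEig {μ : Type} [Fintype μ] [DecidableEq μ] (b : Basis μ ℚ E) (σ : Emb E) (v : μ → ℂ) : Prop :=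
  ∀ a : E, (Algebra.leftMulMatrix b a).map (algebraMap ℚ ℂ) *ᵥ v = ((σ a : Qbar) : ℂ) • v

open Classical in
/-- The Hodge type of the `σ`-eigenline of `H^1(A, ℂ) = E ⊗ ℂ`: it is `1` if the line is in `F^1`
and `0` if not. -/
noncomputable def hodgeP {g N : ℕ} (A : AbData g N) (b : Basis (Ix g) ℚ E) (σ : Emb E) : ℤ :=
  if ∀ v, IsEig b σ v → v ∈ F1 A then 1 else 0

/-- Every CM type of a cyclic CM field contained in the field generated by the images of the
embeddings of `E` is the Hodge type (as a function on the Galois group) of an embedding of `E`. -/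
def AllTypes (E : Type) [CommRing E] [Algebra ℚ E] (p : Emb E → ℤ) : Prop :=
  ∀ (ψ : GQ →* ℂ) (Φ : GQ → ℤ), IsCyclicCMType E ψ Φ → ∃ σ : Emb E, ∀ γ, p (gal γ σ) = Φ γ

open Classical in
/-- Every saturated Galois stable group `Λ` of characters of degree zero of the torus `E^×` which
contains the characters of Hodge type zero, and other characters, contains `δ_σ - δ_τ` for two
embeddings `σ, τ` with different Hodge types (as functions on the Galois group). -/
def SepTypes [Fintype (Emb E)] (p : Emb E → ℤ) : Prop :=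
  ∀ Λ : AddSubgroup (Emb E → ℤ), (∀ (n : ℕ) (χ : Emb E → ℤ), n ≠ 0 → n • χ ∈ Λ → χ ∈ Λ) →
    (∀ χ ∈ Λ, ∀ δ : GQ, (fun σ => χ (gal δ σ)) ∈ Λ) → (∀ χ ∈ Λ, ∑ σ, χ σ = 0) →
    (∀ χ, (∀ γ : GQ, typ p χ γ = 0) → χ ∈ Λ) → (∃ χ ∈ Λ, ∃ γ : GQ, typ p χ γ ≠ 0) →
    ∃ σ τ : Emb E, (fun κ => (if κ = σ then (1 : ℤ) else 0) - if κ = τ then 1 else 0) ∈ Λ ∧
      ∃ γ : GQ, p (gal γ σ) ≠ p (gal γ τ)

/-- The complex points `(x, z)` of the Mumford-Tate group of `M ⊕ ℚ(-1)`, for `M` of weight one. -/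
def MTZ {K : IntermediateField ℚ ℂ} {μ : Type} [Fintype μ] [DecidableEq μ] {ρ : E ≃ₐ[ℚ] E}
    [Fintype (Emb E)] (M : CMObj K μ E ρ) (p : Emb E → ℤ) : Set (GL μ ℂ × ℂˣ) :=
  {y | y.1 ∈ MT M.b p ∧ y.1.1ᵀ * M.ψB.map (algebraMap ℚ ℂ) * y.1.1 =
    (y.2 : ℂ) • M.ψB.map (algebraMap ℚ ℂ)}

end

/-- Indices for the coordinates of `GL_μ × G_m`. -/
abbrev VarT (μ : Type) : Type := (μ × μ ⊕ μ × μ) ⊕ (Unit ⊕ Unit)

section

variable {μ κ ι : Type} [Fintype μ] [DecidableEq μ] [Fintype κ] [DecidableEq κ] [Fintype ι]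
  [DecidableEq ι]

/-- The coordinates of the point `(x, z)` of `GL_μ × G_m`: the entries of `x` and `x⁻¹`, and `z`,
`1 / z`. -/
noncomputable def crdT (y : GL μ ℂ × ℂˣ) : VarT μ → ℂ :=
  Sum.elim (Sum.elim (fun e => y.1.1 e.1 e.2) fun e => y.1⁻¹.1 e.1 e.2)
    (Sum.elim (fun _ => (y.2 : ℂ)) fun _ => (y.2 : ℂ)⁻¹)

/-- `T` is a representation of the algebraic group `GL_μ × G_m` over `ℚ`. (If `c` is the period
matrix of `M` then `T (c, 2 π i)` is the period matrix of the object obtained from `M` and the Tate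
object `ℚ(-1)` by the corresponding tensor operations.) -/
structure IsRep (T : GL μ ℂ × ℂˣ → GL κ ℂ) : Prop where
  regular : ∀ i j, ∃ p : MvPolynomial (VarT μ) ℚ, ∀ y, (T y).1 i j = aeval (crdT y) p
  mul : ∀ x y, T (x * y) = T x * T y

/-- The de Rham-Betti object with period matrix `n` is over `Qbar` a sub-object of the one with
period matrix `c`; `iB` is the matrix of the inclusion on the Betti side. -/
structure IsSubObj (c : GL κ ℂ) (n : GL ι ℂ) (iB : Matrix κ ι ℚ) : Prop where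
  inj : ∃ pB : Matrix ι κ ℚ, pB * iB = 1
  dR : ∃ idR : Matrix κ ι Qbar,
    c.1 * idR.map (algebraMap Qbar ℂ) = iB.map (algebraMap ℚ ℂ) * n.1

/-- The image of the set `W` of complex points of `GL_μ × G_m` in the automorphisms of the Betti
side of the sub-object, i.e. its Mumford-Tate group, if `W` is the Mumford-Tate group of
`M ⊕ ℚ(-1)`. -/
def imG (T : GL μ ℂ × ℂˣ → GL κ ℂ) (iB : Matrix κ ι ℚ) (W : Set (GL μ ℂ × ℂˣ)) :
    Set (GL ι ℂ) :=
  {f | ∃ y ∈ W, (T y).1 * iB.map (algebraMap ℚ ℂ) = iB.map (algebraMap ℚ ℂ) * f.1}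

end

/-- `2 π i`, the period of the Tate object `ℚ(-1)` -/
noncomputable def tpi : ℂˣ := Units.mk0 (2 * Real.pi * Complex.I) Complex.two_pi_I_ne_zero

end Pool.Agent.Lib.MPf11a48.C
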