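import Pool.Agent.Lib.MP_f11a48_ag.C.Stmt
import Pool.Agent.Lib.MP_f11a48_ag.K3.KTen
import Pool.Agent.Lib.MP_f11a48_ag.helper92.Bridge

/-! # Objects obtained from an object and the Tate object by tensor operations -/

set_option autoImplicit false
set_option linter.unusedSectionVars false

namespace Pool.Agent.Lib.MPf11a48.C

open Matrix MvPolynomial Pool.Agent.Lib.MPf11a48.Tors Pool.Agent.Lib.MPf11a48.K3.KTenM
open Pool.Agent.Lib.MPf11a48.CM hiding OmegaM tw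
open Pool.Agent.Lib.MPf11a48.GL2T (Conj)

namespace TenM

section

variable {μ : Type} [Fintype μ] [DecidableEq μ]

/-- the block diagonal matrix with blocks `A` and `m` -/
def lb (A : Matrix μ μ ℂ) (m : ℂ) : Matrix (μ ⊕ Unit) (μ ⊕ Unit) ℂ :=
  fromBlocks A 0 0 (of fun _ _ => m)

theorem lb_mul (A A' : Matrix μ μ ℂ) (m m' : ℂ) : lb A m * lb A' m' = lb (A * A') (m * m') := by
  unfold lb
  rw [fromBlocks_multiply]
  simp only [Matrix.mul_zero, Matrix.zero_mul, add_zero, zero_add]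
  congr 1
  ext i j
  simp [Matrix.mul_apply]

theorem lb_one : lb (1 : Matrix μ μ ℂ) 1 = 1 := by
  ext i j
  rcases i with i | i <;> rcases j with j | j <;> simp [lb, Matrix.one_apply]

/-- the point `(x, z)` of `GL_μ × G_m` as a block diagonal matrix -/
noncomputable def bd : GL μ ℂ × ℂˣ →* GL (μ ⊕ Unit) ℂ where
  toFun y := ⟨lb y.1.1 y.2, lb y.1⁻¹.1 ((y.2⁻¹ : ℂˣ) : ℂ), by
    rw [lb_mul, y.1.mul_inv, y.2.mul_inv, lb_one], by
    rw [lb_mul, y.1.inv_mul, y.2.inv_mul, lb_one]⟩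
  map_one' := Units.ext lb_one
  map_mul' x y := Units.ext (by
    change lb (x.1.1 * y.1.1) ((x.2 : ℂ) * (y.2 : ℂ)) = lb x.1.1 x.2 * lb y.1.1 y.2
    rw [lb_mul])

theorem bd_val (y : GL μ ℂ × ℂˣ) : (bd y).1 = lb y.1.1 y.2 := rfl

/-- the entries of `g` and `g⁻¹` which are the coordinates of a block diagonal matrix -/
noncomputable def sb {k : IntermediateField ℚ ℂ} : VarT μ →
    MvPolynomial (((μ ⊕ Unit) × (μ ⊕ Unit)) ⊕ ((μ ⊕ Unit) × (μ ⊕ Unit))) k :=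
  Sum.elim (Sum.elim (fun e => X (Sum.inl (Sum.inl e.1, Sum.inl e.2)))
    fun e => X (Sum.inr (Sum.inl e.1, Sum.inl e.2)))
    (Sum.elim (fun _ => X (Sum.inl (Sum.inr (), Sum.inr ())))
      fun _ => X (Sum.inr (Sum.inr (), Sum.inr ())))

theorem sb_eval {k : IntermediateField ℚ ℂ} (x : GL μ ℂ × ℂˣ) :
    (fun e => aeval (Sum.elim (ent (bd x)) (ent (bd x)⁻¹)) (sb (k := k) e)) = crdT x := by
  funext e
  rcases e with (e | e) | (e | e)
  · exact aeval_X _ _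
  · exact aeval_X _ _
  · exact aeval_X _ _
  · refine (aeval_X _ _).trans ?_
    change ((x.2⁻¹ : ℂˣ) : ℂ) = (x.2 : ℂ)⁻¹
    exact Units.val_inv_eq_inv_val _

/-- matrices without off-diagonal blocks -/
theorem exists_bd {g : GL (μ ⊕ Unit) ℂ} (h1 : ∀ i u, g.1 (Sum.inl i) (Sum.inr u) = 0)
    (h2 : ∀ u i, g.1 (Sum.inr u) (Sum.inl i) = 0) : ∃ x, bd x = g := by
  have ha : g.1 * g⁻¹.1 = 1 := g.mul_inv
  have hb : g⁻¹.1 * g.1 = 1 := g.inv_mul
  have hA : g.1.toBlocks₁₁ * g⁻¹.1.toBlocks₁₁ = 1 := by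
    ext i j
    have h3 := congrFun (congrFun ha (Sum.inl i)) (Sum.inl j)
    rw [Matrix.mul_apply, Fintype.sum_sum_type] at h3
    simp only [h1, zero_mul, Finset.sum_const_zero, add_zero] at h3
    rw [Matrix.mul_apply]
    refine h3.trans ?_
    simp [Matrix.one_apply]
  have hz : g.1 (Sum.inr ()) (Sum.inr ()) * g⁻¹.1 (Sum.inr ()) (Sum.inr ()) = 1 := by
    have h3 := congrFun (congrFun ha (Sum.inr ())) (Sum.inr ())
    rw [Matrix.mul_apply, Fintype.sum_sum_type] at h3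
    simp only [h2, zero_mul, Finset.sum_const_zero, zero_add] at h3
    simpa using h3
  refine ⟨(⟨g.1.toBlocks₁₁, g⁻¹.1.toBlocks₁₁, hA, mul_eq_one_comm.1 hA⟩,
    ⟨g.1 (Sum.inr ()) (Sum.inr ()), g⁻¹.1 (Sum.inr ()) (Sum.inr ()), hz, by
      rw [mul_comm]; exact hz⟩), ?_⟩
  apply Units.ext
  ext i j
  rcases i with i | i <;> rcases j with j | j
  · rfl
  · exact (h1 i j).symm
  · exact (h2 i j).symm
  · rfl

theorem bd_injective : Function.Injective (bd (μ := μ)) := by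
  intro x y hxy
  have h1 : lb x.1.1 x.2 = lb y.1.1 y.2 := congrArg Units.val hxy
  refine Prod.ext (Units.ext ?_) (Units.ext ?_)
  · ext i j
    exact congrFun (congrFun h1 (Sum.inl i)) (Sum.inl j)
  · exact congrFun (congrFun h1 (Sum.inr ())) (Sum.inr ())

end

variable {μ : Type} [Fintype μ] [DecidableEq μ] {ι κ : Type} [Fintype ι] [DecidableEq ι]
  [Fintype κ] [DecidableEq κ]

/-- preimages of closed sets under polynomial maps -/
theorem closedOver_pull {k : IntermediateField ℚ ℂ} {Ψ : GL μ ℂ × ℂˣ → Matrix ι ι ℂ}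
    (hΨ : ∀ i j, ∃ p : MvPolynomial (VarT μ) k, ∀ x, Ψ x i j = aeval (crdT x) p)
    {R : Type} {Q : R → GL μ ℂ × ℂˣ → ℂ}
    (hQ : ∀ r, ∃ p : MvPolynomial (VarT μ) k, ∀ x, Q r x = aeval (crdT x) p)
    (hdet : ∀ x, (∀ r, Q r x = 0) → ∃ f : GL ι ℂ, f.1 = Ψ x)
    {T₀ : Set (GL ι ℂ)} (h : ClosedOver k T₀) :
    ClosedOver k {g : GL (μ ⊕ Unit) ℂ |
      ∃ x, bd x = g ∧ (∀ r, Q r x = 0) ∧ ∃ f ∈ T₀, f.1 = Ψ x} := by
  obtain ⟨S, hS⟩ := h
  choose P hP using hΨ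
  choose P' hP' using hQ
  choose M q hq using fun p : MvPolynomial (ι × ι) k =>
    clear_inverse (ι := μ ⊕ Unit)
      (aeval (fun ij : ι × ι => aeval (sb (k := k) (μ := μ)) (P ij.1 ij.2)) p)
  choose M' q' hq' using fun r : R =>
    clear_inverse (ι := μ ⊕ Unit) (aeval (sb (k := k) (μ := μ)) (P' r))
  have key : ∀ (p : MvPolynomial (ι × ι) k) (x : GL μ ℂ × ℂˣ),
      aeval (ent (bd x)) (q p) = (bd x).1.det ^ M p *
        aeval (fun ij : ι × ι => Ψ x ij.1 ij.2) p := by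
    intro p x
    rw [hq, comp_aeval_apply]
    congr 3
    funext ij
    rw [comp_aeval_apply, sb_eval]
    exact (hP ij.1 ij.2 x).symm
  have key' : ∀ (r : R) (x : GL μ ℂ × ℂˣ),
      aeval (ent (bd x)) (q' r) = (bd x).1.det ^ M' r * Q r x := by
    intro r x
    rw [hq', comp_aeval_apply, sb_eval]
    congr 1
    exact (hP' r x).symm
  refine ⟨{r | (∃ i u, r = X (Sum.inl i, Sum.inr u)) ∨ (∃ u i, r = X (Sum.inr u, Sum.inl i)) ∨
    (∃ p ∈ S, r = q p) ∨ ∃ e, r = q' e}, ?_⟩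
  ext g
  constructor
  · rintro ⟨x, rfl, hx, f, hf, hfx⟩ r (⟨i, u, rfl⟩ | ⟨u, i, rfl⟩ | ⟨p, hp, rfl⟩ | ⟨e, rfl⟩)
    · exact aeval_X _ _
    · exact aeval_X _ _
    · have h1 := key p x
      rw [hS] at hf
      have h2 := hf p hp
      rw [hfx] at h2
      rw [h2, mul_zero] at h1
      exact h1
    · have h1 := key' e x
      rw [hx, mul_zero] at h1
      exact h1
  · intro hg
    have hg1 : ∀ (i : μ) (u : Unit), g.1 (Sum.inl i) (Sum.inr u) = 0 := by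
      intro i u
      have h1 := hg (X (Sum.inl i, Sum.inr u)) (Or.inl ⟨i, u, rfl⟩)
      rw [aeval_X] at h1
      exact h1
    have hg2 : ∀ (u : Unit) (i : μ), g.1 (Sum.inr u) (Sum.inl i) = 0 := by
      intro u i
      have h1 := hg (X (Sum.inr u, Sum.inl i)) (Or.inr (Or.inl ⟨u, i, rfl⟩))
      rw [aeval_X] at h1
      exact h1
    obtain ⟨x, rfl⟩ := exists_bd hg1 hg2
    have hx : ∀ r, Q r x = 0 := by
      intro r
      have h1 := (key' r x).symm.trans (hg _ (Or.inr (Or.inr (Or.inr ⟨r, rfl⟩))))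
      exact (mul_eq_zero.1 h1).resolve_left (pow_ne_zero _ (det_ne (bd x)))
    obtain ⟨f, hf⟩ := hdet x hx
    refine ⟨x, rfl, hx, f, ?_, hf⟩
    rw [hS]
    intro p hp
    have h1 := (key p x).symm.trans (hg _ (Or.inr (Or.inr (Or.inl ⟨p, hp, rfl⟩))))
    rw [hf]
    exact (mul_eq_zero.1 h1).resolve_left (pow_ne_zero _ (det_ne (bd x)))

/-- a square matrix with a left inverse -/
theorem exists_gl {X Y : Matrix ι ι ℂ} (h : Y * X = 1) : ∃ f : GL ι ℂ, f.1 = X :=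
  ⟨⟨X, Y, mul_eq_one_comm.1 h, h⟩, rfl⟩

/-- the preimage of a closed set of automorphisms of a sub-object -/
theorem closedOver_sub {k : IntermediateField ℚ ℂ} {T : GL μ ℂ × ℂˣ → GL κ ℂ}
    (hT : ∀ i j, ∃ p : MvPolynomial (VarT μ) ℚ, ∀ y, (T y).1 i j = aeval (crdT y) p)
    {iB : Matrix κ ι ℚ} {pB : Matrix ι κ ℚ} (hpB : pB * iB = 1) {F : Matrix κ ι k}
    {G : Matrix ι κ ℂ} (hG : G * F.map (algebraMap k ℂ) = 1) {T₀ : Set (GL ι ℂ)}
    (h : ClosedOver k T₀) :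
    ClosedOver k {g : GL (μ ⊕ Unit) ℂ | ∃ x, bd x = g ∧ ∃ f ∈ T₀,
      (T x).1 * F.map (algebraMap k ℂ) = iB.map (algebraMap ℚ ℂ) * f.1} := by
  classical
  have hpBC : pB.map (algebraMap ℚ ℂ) * iB.map (algebraMap ℚ ℂ) = 1 := by
    rw [← Matrix.map_mul, hpB, Matrix.map_one _ (map_zero _) (map_one _)]
  choose P hP using hT
  have hPk : ∀ (p : MvPolynomial (VarT μ) ℚ) (v : VarT μ → ℂ),
      aeval v (p.map (algebraMap ℚ k)) = aeval v p := fun p v => aeval_map_algebraMap _ _ _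
  -- the polynomials
  let TP : Matrix κ κ (MvPolynomial (VarT μ) k) := fun i j => (P i j).map (algebraMap ℚ k)
  let FP : Matrix κ ι (MvPolynomial (VarT μ) k) := F.map C
  let pP : Matrix ι κ (MvPolynomial (VarT μ) k) := pB.map fun x => C (algebraMap ℚ k x)
  let iP : Matrix κ ι (MvPolynomial (VarT μ) k) := iB.map fun x => C (algebraMap ℚ k x)
  have eT : ∀ x, TP.map (aeval (crdT x)) = (T x).1 := by
    intro x
    ext i j
    simp only [TP, map_apply, hPk]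
    exact (hP i j x).symm
  have eF : ∀ x, FP.map (aeval (crdT x)) = F.map (algebraMap k ℂ) := by
    intro x
    ext i j
    simp [FP]
  have ep : ∀ x, pP.map (aeval (crdT x)) = pB.map (algebraMap ℚ ℂ) := by
    intro x
    ext i j
    simp only [pP, map_apply, aeval_C]
    exact (IsScalarTower.algebraMap_apply ℚ k ℂ _).symm
  have ei : ∀ x, iP.map (aeval (crdT x)) = iB.map (algebraMap ℚ ℂ) := by
    intro x
    ext i j
    simp only [iP, map_apply, aeval_C]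
    exact (IsScalarTower.algebraMap_apply ℚ k ℂ _).symm
  let Ψ : GL μ ℂ × ℂˣ → Matrix ι ι ℂ := fun x =>
    pB.map (algebraMap ℚ ℂ) * ((T x).1 * F.map (algebraMap k ℂ))
  have eΨ : ∀ x, (pP * (TP * FP)).map (aeval (crdT x)) = Ψ x := by
    intro x
    rw [Matrix.map_mul, Matrix.map_mul, eT, eF, ep]
  let Q : κ × ι → GL μ ℂ × ℂˣ → ℂ := fun r x =>
    ((T x).1 * F.map (algebraMap k ℂ) - iB.map (algebraMap ℚ ℂ) * Ψ x) r.1 r.2
  have hQΨ : ∀ x, (∀ r, Q r x = 0) ↔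
      (T x).1 * F.map (algebraMap k ℂ) = iB.map (algebraMap ℚ ℂ) * Ψ x := by
    intro x
    rw [← sub_eq_zero]
    constructor
    · intro h
      ext a b
      exact h (a, b)
    · intro h r
      exact congrFun (congrFun h r.1) r.2
  have hcl := closedOver_pull (k := k) (Ψ := Ψ) (Q := Q) (fun i j => ⟨(pP * (TP * FP)) i j,
      fun x => (congrFun (congrFun (eΨ x) i) j).symm⟩) (fun r => by
      refine ⟨(TP * FP - iP * (pP * (TP * FP))) r.1 r.2, fun x => ?_⟩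
      have h1 : (TP * FP - iP * (pP * (TP * FP))).map (aeval (crdT x)) =
          (T x).1 * F.map (algebraMap k ℂ) - iB.map (algebraMap ℚ ℂ) * Ψ x := by
        rw [Matrix.map_sub (aeval (crdT x) : MvPolynomial (VarT μ) k →ₐ[k] ℂ)
          (fun a b => map_sub _ a b), Matrix.map_mul, eT, eF, Matrix.map_mul, ei, eΨ]
      exact (congrFun (congrFun h1 r.1) r.2).symm) (fun x hx => by
      rw [hQΨ] at hx
      refine exists_gl (Y := G * (T x)⁻¹.1 * iB.map (algebraMap ℚ ℂ)) ?_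
      have hTT : (T x)⁻¹.1 * (T x).1 = 1 := (T x).inv_mul
      calc G * (T x)⁻¹.1 * iB.map (algebraMap ℚ ℂ) * Ψ x
          = G * (T x)⁻¹.1 * ((T x).1 * F.map (algebraMap k ℂ)) := by
            rw [hx, Matrix.mul_assoc]
        _ = G * ((T x)⁻¹.1 * (T x).1) * F.map (algebraMap k ℂ) := by
            simp only [Matrix.mul_assoc]
        _ = 1 := by rw [hTT, Matrix.mul_one, hG]) h
  have e : {g : GL (μ ⊕ Unit) ℂ | ∃ x, bd x = g ∧ ∃ f ∈ T₀,
      (T x).1 * F.map (algebraMap k ℂ) = iB.map (algebraMap ℚ ℂ) * f.1} =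
      {g : GL (μ ⊕ Unit) ℂ | ∃ x, bd x = g ∧ (∀ r, Q r x = 0) ∧ ∃ f ∈ T₀, f.1 = Ψ x} := by
    ext g
    constructor
    · rintro ⟨x, hx, f, hf, h1⟩
      have h2 : f.1 = Ψ x := by
        change f.1 = pB.map (algebraMap ℚ ℂ) * ((T x).1 * F.map (algebraMap k ℂ))
        rw [h1, ← Matrix.mul_assoc, hpBC, Matrix.one_mul]
      exact ⟨x, hx, (hQΨ x).2 (by rw [← h2]; exact h1), f, hf, h2⟩
    · rintro ⟨x, hx, h1, f, hf, h2⟩
      refine ⟨x, hx, f, hf, ?_⟩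
      rw [h2]
      exact (hQΨ x).1 h1
  rw [e]
  exact hcl

/-- a vector of the sub-object moved by a quotient -/
theorem sub_inv {A B : GL κ ℂ} {F iB : Matrix κ ι ℂ} {f f' : GL ι ℂ} (h : A.1 * F = iB * f.1)
    (h' : B.1 * F = iB * f'.1) : (A * B⁻¹).1 * iB = iB * (f * f'⁻¹).1 := by
  have hBB : B⁻¹.1 * B.1 = 1 := B.inv_mul
  have hff : f'.1 * f'⁻¹.1 = 1 := f'.mul_inv
  have h1 : B⁻¹.1 * iB = F * f'⁻¹.1 := by
    calc B⁻¹.1 * iB = B⁻¹.1 * (iB * (f'.1 * f'⁻¹.1)) := by rw [hff, Matrix.mul_one]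
      _ = B⁻¹.1 * (iB * f'.1) * f'⁻¹.1 := by simp only [Matrix.mul_assoc]
      _ = (B⁻¹.1 * B.1) * F * f'⁻¹.1 := by
        rw [← h']
        simp only [Matrix.mul_assoc]
      _ = _ := by rw [hBB, Matrix.one_mul]
  have e1 : (A * B⁻¹).1 = A.1 * B⁻¹.1 := rfl
  have e2 : (f * f'⁻¹).1 = f.1 * f'⁻¹.1 := rfl
  rw [e1, e2, Matrix.mul_assoc, h1, ← Matrix.mul_assoc, h, Matrix.mul_assoc]

/-- composition -/
theorem sub_mul {A B : GL κ ℂ} {F iB : Matrix κ ι ℂ} {f f' : GL ι ℂ} (h : A.1 * iB = iB * f.1)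
    (h' : B.1 * F = iB * f'.1) : (A * B).1 * F = iB * (f * f').1 := by
  have e1 : (A * B).1 = A.1 * B.1 := rfl
  have e2 : (f * f').1 = f.1 * f'.1 := rfl
  rw [e1, e2, Matrix.mul_assoc, h', ← Matrix.mul_assoc, h, Matrix.mul_assoc]

end TenM

open TenM

/-- If every torsor over `Qbar` with group over `ℚ` through `(c, 2 π i)` contains `W (c, 2 π i)`,
then this is so for all sub-objects of the objects obtained by tensor operations. -/
theorem ten {μ : Type} [Fintype μ] [DecidableEq μ] (W : Set (GL μ ℂ × ℂˣ)) (c : GL μ ℂ)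
    (hW : ∀ T : Set (GL (μ ⊕ Unit) ℂ), IsTorsor Qbar T → bd (c, tpi) ∈ T →
      ClosedOver ⊥ (grp T) → ∀ y ∈ W, bd (y * (c, tpi)) ∈ T)
    (K : IntermediateField ℚ ℂ) (hK : K ≤ Qbar) (κ ι : Type) [Fintype κ] [DecidableEq κ]
    [Fintype ι] [DecidableEq ι] (T : GL μ ℂ × ℂˣ → GL κ ℂ) (hT : IsRep T) (n : GL ι ℂ)
    (iB : Matrix κ ι ℚ) (hN : IsSubObj (T (c, tpi)) n iB) :
    (∀ y ∈ W, ∃ f : GL ι ℂ,
      (T y).1 * iB.map (algebraMap ℚ ℂ) = iB.map (algebraMap ℚ ℂ) * f.1) ∧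
    (∀ f ∈ imG T iB W, ∀ h, Conj K (f * n) h → h ∈ OmegaDRB K n) ∧
      ∀ S : Set (TPair K ι), (∀ α ∈ S, Fixes n α) →
        (∀ h ∈ OmegaS S, ∃ f ∈ imG T iB W, Conj K (f * n) h) →
        OmegaDRB K n = OmegaS S ∧ (K = ⊥ → OmegaM K n = OmegaS S) := by
  obtain ⟨⟨pB, hpB⟩, idR, hdR⟩ := hN
  have hpBC : pB.map (algebraMap ℚ ℂ) * iB.map (algebraMap ℚ ℂ) = 1 := by
    rw [← Matrix.map_mul, hpB, Matrix.map_one _ (map_zero _) (map_one _)]
  have hnn : n⁻¹.1 * n.1 = 1 := n.inv_mul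
  have hG : (n⁻¹.1 * pB.map (algebraMap ℚ ℂ) * (T (c, tpi)).1) * idR.map (algebraMap Qbar ℂ) = 1 := by
    rw [Matrix.mul_assoc, hdR]
    calc n⁻¹.1 * pB.map (algebraMap ℚ ℂ) * (iB.map (algebraMap ℚ ℂ) * n.1)
        = n⁻¹.1 * (pB.map (algebraMap ℚ ℂ) * iB.map (algebraMap ℚ ℂ)) * n.1 := by
          simp only [Matrix.mul_assoc]
      _ = 1 := by rw [hpBC, Matrix.mul_one, hnn]
  -- uniqueness of the automorphism
  have huniq : ∀ {f f' : GL ι ℂ}, iB.map (algebraMap ℚ ℂ) * f.1 = iB.map (algebraMap ℚ ℂ) * f'.1 →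
      f = f' := by
    intro f f' h
    apply Units.ext
    have h1 := congrArg (fun X => pB.map (algebraMap ℚ ℂ) * X) h
    simp only [← Matrix.mul_assoc, hpBC, Matrix.one_mul] at h1
    exact h1
  set T₀ := OmegaDRB K n with hT₀def
  have hT₀ : IsTorsor Qbar T₀ := by
    have h := isTorsor_OmegaDRB K n
    exact ⟨GL2.closedOver_mono hK h.closed, h.nonempty, h.heap⟩
  have hn : n ∈ T₀ := mem_OmegaDRB_self K _
  have hcl : ClosedOver ⊥ (grp T₀) := by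
    rw [hT₀def, grp_OmegaDRB]
    exact closedOver_GdRB K _
  have hT1 : T 1 = 1 := by
    have h := hT.mul 1 1
    rw [mul_one] at h
    exact (mul_eq_left.1 h.symm)
  have hTinv : ∀ x, T x⁻¹ = (T x)⁻¹ := by
    intro x
    rw [eq_inv_iff_mul_eq_one, ← hT.mul, inv_mul_cancel, hT1]
  -- the preimage
  set T₁ : Set (GL (μ ⊕ Unit) ℂ) := {g | ∃ x, bd x = g ∧ ∃ f ∈ T₀,
    (T x).1 * idR.map (algebraMap Qbar ℂ) = iB.map (algebraMap ℚ ℂ) * f.1} with hT₁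
  have hcT₁ : bd (c, tpi) ∈ T₁ := ⟨_, rfl, n, hn, hdR⟩
  have htor : IsTorsor Qbar T₁ := by
    refine ⟨closedOver_sub hT.regular hpB hG hT₀.closed, ⟨_, hcT₁⟩, ?_⟩
    rintro _ ⟨x, rfl, fx, hx, hx'⟩ _ ⟨y, rfl, fy, hy, hy'⟩ _ ⟨z, rfl, fz, hz, hz'⟩
    refine ⟨x * y⁻¹ * z, by rw [map_mul, map_mul, map_inv], fx * fy⁻¹ * fz,
      hT₀.heap _ hx _ hy _ hz, ?_⟩
    rw [hT.mul, hT.mul, hTinv]
    exact sub_mul (sub_inv hx' hy') hz'
  have hiB : (iB.map (algebraMap ℚ (⊥ : IntermediateField ℚ ℂ))).map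
      (algebraMap (⊥ : IntermediateField ℚ ℂ) ℂ) = iB.map (algebraMap ℚ ℂ) := by
    ext i j
    exact (IsScalarTower.algebraMap_apply ℚ (⊥ : IntermediateField ℚ ℂ) ℂ _).symm
  have hgrp : ClosedOver ⊥ (grp T₁) := by
    have e : grp T₁ = {g | ∃ x, bd x = g ∧ ∃ f ∈ grp T₀, (T x).1 *
        (iB.map (algebraMap ℚ (⊥ : IntermediateField ℚ ℂ))).map
          (algebraMap (⊥ : IntermediateField ℚ ℂ) ℂ) = iB.map (algebraMap ℚ ℂ) * f.1} := by
      ext g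
      rw [mem_grp_iff htor hcT₁, hiB]
      constructor
      · rintro ⟨x, hx, f, hf, hx'⟩
        refine ⟨x * (c, tpi)⁻¹, by rw [map_mul, map_inv, hx, mul_inv_cancel_right], f * n⁻¹,
          ⟨f, hf, n, hn, rfl⟩, ?_⟩
        rw [hT.mul, hTinv]
        exact sub_inv hx' hdR
      · rintro ⟨x, rfl, f, hf, hx⟩
        refine ⟨x * (c, tpi), map_mul _ _ _, f * n, (mem_grp_iff hT₀ hn).1 hf, ?_⟩
        rw [hT.mul]
        exact sub_mul hx hdR
    rw [e]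
    refine closedOver_sub hT.regular hpB (G := pB.map (algebraMap ℚ ℂ)) ?_ hcl
    rw [hiB]
    exact hpBC
  have hmain : ∀ y ∈ W, ∃ f : GL ι ℂ,
      (T y).1 * iB.map (algebraMap ℚ ℂ) = iB.map (algebraMap ℚ ℂ) * f.1 ∧ f * n ∈ T₀ := by
    intro y hy
    obtain ⟨x, hx, f, hf, hx'⟩ := hW T₁ htor hcT₁ hgrp y hy
    have hxy : x = y * (c, tpi) := bd_injective hx
    have h1 := sub_inv (f := f) (f' := n) hx' hdR
    rw [hxy, hT.mul, mul_inv_cancel_right] at h1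
    exact ⟨f * n⁻¹, h1, by rwa [inv_mul_cancel_right]⟩
  have h0 : ∀ f ∈ imG T iB W, f * n ∈ T₀ := by
    rintro f ⟨y, hy, hf⟩
    obtain ⟨f', hf', h2⟩ := hmain y hy
    have : f = f' := huniq (hf.symm.trans hf')
    rw [this]
    exact h2
  have h1 : ∀ f ∈ imG T iB W, ∀ h, Conj K (f * n) h → h ∈ OmegaDRB K n := by
    intro f hf h hh
    obtain ⟨τ, hτ, hh⟩ := hh
    have hh' : h = tw τ (f * n) := by
      apply Units.ext
      exact Matrix.ext hh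
    rw [hh']
    exact OmegaDRB_tw hτ (h0 f hf)
  refine ⟨fun y hy => ?_, h1, fun S hS hsub => ?_⟩
  · obtain ⟨f, hf, _⟩ := hmain y hy
    exact ⟨f, hf⟩
  have h3 : OmegaDRB K n = OmegaS S := by
    refine (drb_subset hS).antisymm fun h hh => ?_
    obtain ⟨f, hf, hfh⟩ := hsub h hh
    exact h1 f hf h hfh
  refine ⟨h3, ?_⟩
  rintro rfl
  rw [← h3]
  exact OmegaM_eq_OmegaDRB _

end Pool.Agent.Lib.MPf11a48.C
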